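import Pool.Agent.H.MP_1b82cc_an.B

open Set Filter Metric Polynomial Pool.Agent.H.MP_1b82cc_an

namespace Pool.Agent.Results.MP_1b82cc_an.Yes

theorem result (c : ℕ → ℂ) (r : ℕ → ℝ) (P : ℂ) (hr : ∀ n, 0 < r n)
    (hd : Pairwise fun m n => Disjoint (closedBall (c m) (r m)) (closedBall (c n) (r n)))
    (hP : ∀ ε > 0, ∀ᶠ n in atTop, closedBall (c n) (r n) ⊆ ball P ε)
    (f : ℂ → OnePoint ℂ) (hf : InF ({P} ∪ ⋃ n, closedBall (c n) (r n)) f) :
    ∃ p : ℕ → ℂ[X], ∀ ε > 0, ∀ᶠ k in atTop, ∀ z ∈ {P} ∪ ⋃ n, closedBall (c n) (r n),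
      chi (OnePoint.some ((p k).eval z)) (f z) < ε := by
  choose p hp using fun k : ℕ => main hr hd hP hf (ε := 1 / (k + 1)) (by positivity)
  exact ⟨p, fun ε e => (tendsto_one_div_add_atTop_nhds_zero_nat.eventually (gt_mem_nhds e)).mono
    fun k hk z hz => (hp k z hz).trans hk⟩

end Pool.Agent.Results.MP_1b82cc_an.Yes
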